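import Pool.Agent.FS.Dil42.Main

namespace Pool.Agent.Results.MP_42043b_gt.DilationFlexible

open Pool.Agent.Lib.MP_42043b_gt Pool.Agent.FS.Dil42

/-- A connected gluing pattern of 18 triangles with three vertices (a closed surface of genus 4)
carries a continuous three-parameter family of dilation structures with all cone angles `6 π`,
any two of which have the same chains of triangles cut by straight lines, while no two are
related by an affine map that respects the triangles. -/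
theorem result : ∃ (σ ι : Fin 3 × Fin 3 × Fin 6 → Fin 3 × Fin 3 × Fin 6)
    (V : ℝ × ℝ × ℝ → Fin 3 × Fin 3 × Fin 6 → ℂ),
    (∀ e, σ (σ (σ e)) = e) ∧ (∀ e, ι (ι e) = e ∧ ι e ≠ e) ∧
    (∀ e e', Relation.ReflTransGen (fun x y => y = σ x ∨ y = ι x) e e') ∧
    (∀ e, Function.minimalPeriod (fun x => ι (σ (σ x))) e = 18) ∧ Continuous V ∧
    ∀ s : ℝ × ℝ × ℝ, 1 < s.1 → 0 < s.2.1 → 0 < s.2.2 →
      Dil σ ι (V s) ∧ (∀ e, cone σ ι (V s) e = 6 * Real.pi) ∧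
      (∀ e n, ∃ b, Cuts σ ι (V s) e b n) ∧
      ∀ s' : ℝ × ℝ × ℝ, 1 < s'.1 → 0 < s'.2.1 → 0 < s'.2.2 →
        (∀ (e : Fin 3 × Fin 3 × Fin 6) (b : ℕ → Bool) (n : ℕ),
          Cuts σ ι (V s) e b n ↔ Cuts σ ι (V s') e b n) ∧
        ((∀ e, ∃ A : ℂ →ₗ[ℝ] ℂ, ∀ (b : ℕ → Bool) (k : ℕ),
          A (dev σ ι (V s) (e, 0, V s e) b k).2.1 = (dev σ ι (V s') (e, 0, V s' e) b k).2.1 ∧
          A (dev σ ι (V s) (e, 0, V s e) b k).2.2 = (dev σ ι (V s') (e, 0, V s' e) b k).2.2) →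
          s = s') :=
  ⟨sg, io, Pool.Agent.FS.Dil42.V, sg3, io2, conn, minper, V_cont, fun _ h1 h2 h3 =>
    ⟨V_dil ⟨h1, h2, h3⟩, cone_V ⟨h1, h2, h3⟩,
      fun e n => cuts_exists sg io (V_ne ⟨h1, h2, h3⟩ e) n, fun _ k1 k2 k3 =>
      ⟨fun e b n => ⟨cuts_imp ⟨h1, h2, h3⟩ ⟨k1, k2, k3⟩ e b n,
        cuts_imp ⟨k1, k2, k3⟩ ⟨h1, h2, h3⟩ e b n⟩,
      fun H => (H (0, 0, 0)).elim fun A hA => inj ⟨h1, h2, h3⟩ ⟨k1, k2, k3⟩ A hA⟩⟩⟩

end Pool.Agent.Results.MP_42043b_gt.DilationFlexible
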