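import Pool.Agent.FS.LinGap42.Wheel

namespace Pool.Agent.Results.MP_42043b_gt.LinearGaps

open Pool.Agent.FS.LinGap42

/-- For every `ε > 0` there are two injective, locally finite families of points of the plane whose
gaps at `z` are at most `ε ‖z‖ + 2`, which lines separate in the same way, and which no affine map
relates. -/
theorem result (ε : ℝ) (hε : 0 < ε) : ∃ (I : Type) (p q : I → ℝ × ℝ),
    Function.Injective p ∧ Function.Injective q ∧
    (∀ R : ℝ, {i | ‖p i‖ ≤ R}.Finite ∧ {i | ‖q i‖ ≤ R}.Finite) ∧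
    (∀ z : ℝ × ℝ, ∃ i, dist (p i) z ≤ ε * ‖z‖ + 2) ∧
    (∀ z : ℝ × ℝ, ∃ i, dist (q i) z ≤ ε * ‖z‖ + 2) ∧ Sep p q ∧ Sep q p ∧
    ¬ ∃ a b c d e f : ℝ, ∀ i,
      q i = (a * (p i).1 + b * (p i).2 + e, c * (p i).1 + d * (p i).2 + f) := by
  obtain ⟨M, hM⟩ := exists_nat_gt (4 * Real.pi / ε)
  obtain ⟨κ, h0, h1, h2, h3⟩ := wheel M
  have h4 : 4 * Real.pi / (2 * M + 3 : ℕ) ≤ ε := by
    rw [div_lt_iff₀ hε] at hM
    rw [div_le_iff₀ (by positivity)]
    push_cast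
    nlinarith [mul_nonneg (Nat.cast_nonneg (α := ℝ) M) hε.le]
  have h5 : ‖((0, 0) : ℝ × ℝ)‖ ≤ κ / 4 := by simp; positivity
  have h6 : ‖((κ / 4, 0) : ℝ × ℝ)‖ ≤ κ / 4 := by
    rw [Prod.norm_def, Real.norm_of_nonneg (by positivity), norm_zero]
    exact max_le le_rfl (by positivity)
  refine ⟨Option (Fin (2 * M + 3) × ℕ), fun o => o.elim (0, 0) (wh _ κ),
    fun o => o.elim (κ / 4, 0) (wh _ κ), inj h2 h3 h5, inj h2 h3 h6,
    fun R => ⟨fin_ball _ _ _ R, fin_ball _ _ _ R⟩, fun z => ?_, fun z => ?_, move h2 h3 h5 h6,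
    move h2 h3 h6 h5, ?_⟩
  · exact (near (by omega) h0 h1 h4 z).elim fun i h => ⟨some i, h⟩
  · exact (near (by omega) h0 h1 h4 z).elim fun i h => ⟨some i, h⟩
  rintro ⟨a, b, c, d, e, f, h⟩
  have g := fun i => congrArg Prod.fst (h (some i))
  have g0 := congrArg Prod.fst (h none)
  have g1 := g (0, 0)
  have g2 := g (0, 1)
  have g3 := g (1, 0)
  have g4 := g (1, 1)
  have g5 := sin_ne (M := M) (i := 0) (j := 1) (by simp)
  simp only [Option.elim, wh] at g0 g1 g2 g3 g4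
  push_cast at g1 g2 g3 g4
  generalize Real.cos (th (2 * M + 3) ((0 : Fin (2 * M + 3)) : ℕ)) = c0 at *
  generalize Real.sin (th (2 * M + 3) ((0 : Fin (2 * M + 3)) : ℕ)) = s0 at *
  generalize Real.cos (th (2 * M + 3) ((1 : Fin (2 * M + 3)) : ℕ)) = c1 at *
  generalize Real.sin (th (2 * M + 3) ((1 : Fin (2 * M + 3)) : ℕ)) = s1 at *
  have k1 : a - 1 = 0 := (mul_eq_zero.1 (show (a - 1) * (c0 * s1 - s0 * c1) = 0 by
    linear_combination s1 * (g1 - g2) - s0 * (g3 - g4))).resolve_right g5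
  have k2 : b = 0 := (mul_eq_zero.1 (show b * (c0 * s1 - s0 * c1) = 0 by
    linear_combination c0 * (g3 - g4) - c1 * (g1 - g2))).resolve_right g5
  rw [sub_eq_zero.1 k1, k2] at g0 g1
  linarith

end Pool.Agent.Results.MP_42043b_gt.LinearGaps
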