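import Pool.Agent.Lib.MP_42043b_gt.FiniteData

namespace Pool.Agent.Results.MP_42043b_gt.OneSidedWords

open Pool.Agent.Lib.MP_42043b_gt

/-- Two flat structures `v`, `v'` on one finite gluing pattern of triangles. If every chain of at
most `N` triangles cut by a straight line for `v` is met by a straight line for `v'`, then `v'` is
within `δ N` of a flat structure whose developments are linear images of those of `v`; here `δ N`
tends to `0`, and is `0` for `N = ∞`. -/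
theorem result (E : Type) [Finite E] (σ ι : E → E) (hσ : ∀ e, σ (σ (σ e)) = e)
    (hι : ∀ e, ι (ι e) = e) (v : E → ℂ) (hv : Flat σ ι v) (α l : ℝ) (hα : 0 < α) :
    ∃ δ : ℕ∞ → ℝ, δ ⊤ = 0 ∧ Filter.Tendsto (fun N : ℕ => δ N) Filter.atTop (nhds 0) ∧
      ∀ (N : ℕ∞) (v' : E → ℂ), Flat σ ι v' → (∀ e, α ≤ cr (v' e) (v' (σ e)) ∧ ‖v' e‖ ≤ l) →
        (∀ (e : E) (b : ℕ → Bool) (n : ℕ), (n : ℕ∞) ≤ N →
          Cuts σ ι v e b n → Meets σ ι v' e b n) →
        ∃ w : E → ℂ, Flat σ ι w ∧ (∀ e, ‖v' e - w e‖ ≤ δ N) ∧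
          ∀ e, ∃ A : ℂ →ₗ[ℝ] ℂ, ∀ (b : ℕ → Bool) (k : ℕ),
            A (dev σ ι v (e, 0, v e) b k).2.1 = (dev σ ι w (e, 0, w e) b k).2.1 ∧
            A (dev σ ι v (e, 0, v e) b k).2.2 = (dev σ ι w (e, 0, w e) b k).2.2 :=
  modulus hσ hι hv l hα

end Pool.Agent.Results.MP_42043b_gt.OneSidedWords
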