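import Pool.Agent.FS.PlaneSep.Main

namespace Pool.Agent.Results.MP_42043b_gt.PlaneSeparations

open Pool.Agent.FS.PlaneSep

/-- Two countable relatively dense families of points of the plane with the same index set. If
every line that misses the first family has a partner line that weakly separates the second family
in the same way, then the second family is the image of the first by one invertible affine map. -/
theorem result (I : Type) [Countable I] (p q : I → ℝ × ℝ)
    (hp : ∃ R : ℝ, ∀ z : ℝ × ℝ, ∃ i, dist (p i) z ≤ R)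
    (hq : ∃ R : ℝ, ∀ z : ℝ × ℝ, ∃ i, dist (q i) z ≤ R)
    (H : ∀ a b c : ℝ, (a ≠ 0 ∨ b ≠ 0) → (∀ i, a * (p i).1 + b * (p i).2 ≠ c) →
      ∃ A B C : ℝ, (A ≠ 0 ∨ B ≠ 0) ∧ ∀ i,
        (a * (p i).1 + b * (p i).2 < c → A * (q i).1 + B * (q i).2 ≤ C) ∧
        (c < a * (p i).1 + b * (p i).2 → C ≤ A * (q i).1 + B * (q i).2)) :
    ∃ a b c d e f : ℝ, a * d - b * c ≠ 0 ∧ ∀ i,
      q i = (a * (p i).1 + b * (p i).2 + e, c * (p i).1 + d * (p i).2 + f) := by
  have den : ∀ p : I → ℝ × ℝ, (∃ R : ℝ, ∀ z : ℝ × ℝ, ∃ i, dist (p i) z ≤ R) →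
      Den (fun i => (p i).1) fun i => (p i).2 := fun p ⟨R, h⟩ => ⟨R, fun s t => by
    obtain ⟨i, hi⟩ := h (s, t)
    rw [Prod.dist_eq, max_le_iff, Real.dist_eq, Real.dist_eq] at hi
    exact ⟨i, hi⟩⟩
  obtain ⟨a, b, c, d, e, f, h⟩ := main (den p hp) (den q hq) H
  refine ⟨a, b, c, d, e, f, fun h0 => ?_, fun i => Prod.ext (h i).1 (h i).2⟩
  by_cases h1 : c ≠ 0 ∨ -a ≠ 0
  · refine (den q hq).nc h1 fun i j => le_of_eq ?_
    linear_combination c * (h i).1 - a * (h i).2 - c * (h j).1 + a * (h j).2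
      - ((p i).2 - (p j).2) * h0
  · by_cases h2 : d ≠ 0 ∨ -b ≠ 0
    · refine (den q hq).nc h2 fun i j => le_of_eq ?_
      linear_combination d * (h i).1 - b * (h i).2 - d * (h j).1 + b * (h j).2
        + ((p i).1 - (p j).1) * h0
    · rw [not_or, not_not, not_not] at h1 h2
      refine (den q hq).nc (A := 1) (B := 0) (by simp) fun i j => le_of_eq ?_
      linear_combination (h i).1 - (h j).1 - ((p i).1 - (p j).1) * h1.2
        - ((p i).2 - (p j).2) * h2.2

end Pool.Agent.Results.MP_42043b_gt.PlaneSeparations
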